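import Pool.Agent.W458.MF.EStm
import Pool.Agent.W397.MF.ODENS

/-!
# Project MFO-E, part EDENS: proportions of the patterns in cosets of the commutator subgroup, for
quadratic spaces with forced eigenvalues
-/

set_option autoImplicit false

open Polynomial

namespace Pool.Agent.W29.MF

open Pool.Agent.W521.Frob Pool.Agent.W458.MF Pool.Agent.W397.MF

theorem luc_congr {l : ℕ} (q q' : ℤ) (h : (q : ZMod l) = (q' : ZMod l)) : ∀ N,
    (luc q N).map (Int.castRingHom (ZMod l)) = (luc q' N).map (Int.castRingHom (ZMod l))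
  | 0 => rfl
  | 1 => rfl
  | N + 2 => by
    have h1 := luc_congr q q' h (N + 1)
    have h2 := luc_congr q q' h N
    have e1 : luc q (N + 2) = X * luc q (N + 1) - C q * luc q N := rfl
    have e2 : luc q' (N + 2) = X * luc q' (N + 1) - C q' * luc q' N := rfl
    rw [e1, e2]
    simp only [Polynomial.map_sub, Polynomial.map_mul, map_C, map_X, h1, h2]
    have e3 : (Int.castRingHom (ZMod l)) q = (Int.castRingHom (ZMod l)) q' := h
    rw [e3]

theorem splitSet_congr {g l q q' : ℕ} (h : (q : ZMod l) = (q' : ZMod l)) :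
    splitSet g l q = splitSet g l q' := by
  unfold splitSet
  rw [h]

theorem flipSet_congr {g N l q q' : ℕ} (h : (q : ZMod l) = (q' : ZMod l)) :
    flipSet g N l q = flipSet g N l q' := by
  unfold flipSet
  have h2 := luc_congr (l := l) (q : ℤ) (q' : ℤ) (by simpa using h) N
  rw [h2, h]

theorem weilm_eval {l : ℕ} {γ a : ZMod l} (ha : a ^ 2 = γ) (u : (ZMod l)[X]) :
    (weilm γ u).eval a = a ^ u.natDegree * u.eval (2 * a) := by
  subst ha
  unfold weilm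
  rw [eval_finsetSum, eval_eq_sum_range, Finset.mul_sum]
  refine Finset.sum_congr rfl fun j hj => ?_
  have hj' : j ≤ u.natDegree := by
    have := Finset.mem_range.1 hj
    omega
  simp only [eval_mul, eval_C, eval_pow, eval_add, eval_X]
  obtain ⟨k, hk⟩ := Nat.exists_eq_add_of_le hj'
  rw [hk, Nat.add_sub_cancel_left]
  ring

theorem sqf_mul_lin {K : Type*} [Field K] {p : K[X]} {a : K} (hp : Squarefree p)
    (ha : p.eval a ≠ 0) : Squarefree (p * (X - C a)) := by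
  rw [squarefree_mul_iff]
  refine ⟨?_, hp, (irreducible_X_sub_C a).squarefree⟩
  apply IsRelPrime.symm
  apply IsCoprime.isRelPrime
  rw [(irreducible_X_sub_C a).coprime_iff_not_dvd, dvd_iff_isRoot]
  exact ha

theorem natAbs_sq_cast {l : ℕ} (z : ℤ) : ((z.natAbs : ℕ) : ZMod l) ^ 2 = (z : ZMod l) ^ 2 := by
  have h := Int.natAbs_sq z
  rw [← Int.cast_pow, ← h, Int.cast_pow, Int.cast_natCast]

theorem natCast_two_ne {l : ℕ} (hl : l.Prime) (hl2 : l ≠ 2) : (2 : ZMod l) ≠ 0 := by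
  have h : ((2 : ℕ) : ZMod l) ≠ 0 := by
    rw [Ne, ZMod.natCast_eq_zero_iff]
    intro h
    exact hl2 ((Nat.prime_dvd_prime_iff_eq hl Nat.prime_two).1 h)
  exact_mod_cast h

theorem echar_sqf {g l r e : ℕ} (hl : l.Prime) (hl2 : l ≠ 2) (hr : ¬ l ∣ r)
    (he : e = 1 ∨ e = 2) {u : (ZMod l)[X]} (hsq : Squarefree (weilm ((r : ZMod l) ^ 2) u))
    (h1 : u.eval (2 * (r : ZMod l)) ≠ 0) (h2 : u.eval (2 * -(r : ZMod l)) ≠ 0) :
    Squarefree (echar g l r e u) := by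
  have : Fact l.Prime := ⟨hl⟩
  have hr0 : (r : ZMod l) ≠ 0 := natCast_ne hl hr
  have h20 : (2 : ZMod l) ≠ 0 := natCast_two_ne hl hl2
  have e1 : (weilm ((r : ZMod l) ^ 2) u).eval (r : ZMod l) ≠ 0 := by
    rw [weilm_eval rfl]
    exact mul_ne_zero (pow_ne_zero _ hr0) h1
  have e2 : (weilm ((r : ZMod l) ^ 2) u).eval (-(r : ZMod l)) ≠ 0 := by
    rw [weilm_eval (by ring)]
    exact mul_ne_zero (pow_ne_zero _ (neg_ne_zero.2 hr0)) h2
  have key := sqf_mul_lin hsq e1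
  unfold echar
  rcases he with rfl | rfl
  · simpa using key
  · have k2 : Squarefree (weilm ((r : ZMod l) ^ 2) u * (X - C (r : ZMod l)) *
        (X - C (-(r : ZMod l)))) := by
      apply sqf_mul_lin key
      rw [eval_mul]
      refine mul_ne_zero e2 ?_
      rw [eval_sub, eval_X, eval_C]
      intro h
      have h' : 2 * (r : ZMod l) = 0 := by linear_combination -h
      exact mul_ne_zero h20 hr0 h'
    rw [Fin.prod_univ_two]
    simpa [mul_assoc] using k2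

theorem fac_ne_zero {l r e : ℕ} (hl : l.Prime) :
    (∏ i : Fin e, (X - C (if i.val = 0 then (r : ZMod l) else -(r : ZMod l))) : (ZMod l)[X]) ≠ 0 := by
  have : Fact l.Prime := ⟨hl⟩
  exact (monic_prod_of_monic _ _ fun i _ => monic_X_sub_C _).ne_zero

theorem extCoset_nonempty (g l e : ℕ) (δ κ : (ZMod l)ˣ) : (extCoset g l e δ κ).Nonempty :=
  ⟨extElt g l e κ * (1 : (Matrix ((Fin g ⊕ Fin g) ⊕ Fin e) ((Fin g ⊕ Fin g) ⊕ Fin e)
    (ZMod l))ˣ).val, 1, one_mem _, rfl⟩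

theorem eprop_ge (hWM : St_WM) (hORB : St_EORB) (hW : St_WINJ) {g l r e : ℕ} {z : ℤ}
    {δ κ : (ZMod l)ˣ} (hg : 0 < g) (hl : l.Prime) (hl2 : l ≠ 2) (hr : ¬ l ∣ r)
    (hz : (z : ZMod l) = (r : ZMod l)) (he : e = 1 ∨ e = 2) {c : ℝ} (hc : 0 < c)
    {S E : Set (ZMod l)[X]} (hSE : S ⊆ E)
    (hS : ∀ f ∈ S, f.Monic ∧ f.natDegree = g ∧ Squarefree (echar g l r e f) ∧
      ∃ B ∈ extCoset g l e δ κ, ((r : ZMod l) • B).charpoly = echar g l r e f)
    (hcard : c * (l : ℝ) ^ g ≤ (S.ncard : ℝ)) :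
    c / (4 * 2 ^ g) ≤ eproportion g l z e δ κ E := by
  classical
  have : Fact l.Prime := ⟨hl⟩
  have : NeZero l := ⟨hl.ne_zero⟩
  obtain ⟨-, -, -, hWM4, hWM5⟩ := hWM l hl ((r : ZMod l) ^ 2)
  have hlp : (0 : ℝ) < l := by exact_mod_cast hl.pos
  have hSfin : S.Finite := by
    apply Set.finite_of_ncard_pos
    have : (0 : ℝ) < (S.ncard : ℝ) := lt_of_lt_of_le (by positivity) hcard
    exact_mod_cast this
  -- lifts
  have hlift : ∀ f ∈ S, ∃ h : ℤ[X], h.map (Int.castRingHom (ZMod l)) = f ∧ h.natDegree = g ∧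
      h.Monic := by
    intro f hf
    obtain ⟨hm, hd, _⟩ := hS f hf
    obtain ⟨h, ha, hb, hc⟩ := hWM5 f hm
    exact ⟨h, hc, by rw [hb, hd], ha⟩
  choose! H hH1 hH2 hH3 using hlift
  have hnat : ((z.natAbs : ℕ) : ZMod l) ^ 2 = (r : ZMod l) ^ 2 := by
    rw [← hz]
    exact natAbs_sq_cast z
  have hweil : ∀ h : ℤ[X], h.Monic → (weil (z.natAbs ^ 2) h * extra e z).map
      (Int.castRingHom (ZMod l)) = echar g l r e (h.map (Int.castRingHom (ZMod l))) := by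
    intro h hh
    rw [Polynomial.map_mul, hWM4 (z.natAbs ^ 2) h hh, Nat.cast_pow, hnat]
    unfold echar extra
    congr 1
    rw [Polynomial.map_prod]
    refine Finset.prod_congr rfl fun i _ => ?_
    rw [Polynomial.map_sub, map_X, map_C]
    congr 2
    split_ifs
    · exact hz
    · have : (Int.castRingHom (ZMod l)) (-z) = -(z : ZMod l) := by simp
      rw [this, hz]
  have hinj : ∀ h h' : ℤ[X], h.Monic → h'.Monic → h.natDegree = h'.natDegree →
      echar g l r e (h.map (Int.castRingHom (ZMod l))) =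
        echar g l r e (h'.map (Int.castRingHom (ZMod l))) →
      h.map (Int.castRingHom (ZMod l)) = h'.map (Int.castRingHom (ZMod l)) := by
    intro h h' hh hh' hd heq
    have h1 := mul_right_cancel₀ (fac_ne_zero (r := r) (e := e) hl) heq
    apply hW l (r ^ 2) h h' hh hh' hd
    rw [hWM4 (r ^ 2) h hh, hWM4 (r ^ 2) h' hh', Nat.cast_pow]
    exact h1
  set Sm := extCoset g l e δ κ with hSm
  have hfin : ∀ s : Set (Matrix ((Fin g ⊕ Fin g) ⊕ Fin e) ((Fin g ⊕ Fin g) ⊕ Fin e) (ZMod l)),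
    s.Finite := fun s => Set.toFinite s
  set P : Set (Matrix ((Fin g ⊕ Fin g) ⊕ Fin e) ((Fin g ⊕ Fin g) ⊕ Fin e) (ZMod l)) :=
    {B | B ∈ Sm ∧ ∃ h : ℤ[X], h.Monic ∧ h.natDegree = g ∧
      h.map (Int.castRingHom (ZMod l)) ∈ E ∧ ((z : ZMod l) • B).charpoly =
          (weil (z.natAbs ^ 2) h * extra e z).map (Int.castRingHom (ZMod l))} with hP
  set Af : (ZMod l)[X] →
      Set (Matrix ((Fin g ⊕ Fin g) ⊕ Fin e) ((Fin g ⊕ Fin g) ⊕ Fin e) (ZMod l)) := fun f =>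
    {B | B ∈ Sm ∧ ((r : ZMod l) • B).charpoly = echar g l r e f} with hAf
  have hA1 : ∀ f ∈ S, Sm.ncard ≤ 4 * (2 * l) ^ g * (Af f).ncard := by
    intro f hf
    obtain ⟨hm, hd, hsq, hB⟩ := hS f hf
    exact hORB g l r e δ κ f hg hl hl2 hr he hm hd hsq hB
  have hA2 : ∑ f ∈ hSfin.toFinset, (Af f).ncard ≤ P.ncard := by
    have e : ∀ f, (Af f).ncard = (hfin (Af f)).toFinset.card := fun f =>
      Set.ncard_eq_toFinset_card _ _
    rw [Set.ncard_eq_toFinset_card P (hfin P), Finset.sum_congr rfl (fun f _ => e f),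
      ← Finset.card_biUnion]
    · refine Finset.card_le_card ?_
      intro A hA
      rw [Finset.mem_biUnion] at hA
      obtain ⟨f, hf, hA⟩ := hA
      rw [Set.Finite.mem_toFinset] at hf hA ⊢
      refine ⟨hA.1, H f, hH3 f hf, hH2 f hf, by rw [hH1 f hf]; exact hSE hf, ?_⟩
      rw [hweil _ (hH3 f hf), hH1 f hf, hz]
      exact hA.2
    · intro f hf f' hf' hne
      simp only [Function.onFun, Finset.disjoint_left, Set.Finite.mem_toFinset]
      intro A hA hA'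
      have hfE : f ∈ S := hSfin.mem_toFinset.1 hf
      have hfE' : f' ∈ S := hSfin.mem_toFinset.1 hf'
      apply hne
      have h3 := hinj (H f) (H f') (hH3 f hfE) (hH3 f' hfE')
        (by rw [hH2 f hfE, hH2 f' hfE']) (by
          rw [hH1 f hfE, hH1 f' hfE', ← hA.2, ← hA'.2])
      rwa [hH1 f hfE, hH1 f' hfE'] at h3
  have hA3 : S.ncard * Sm.ncard ≤ 4 * (2 * l) ^ g * P.ncard := by
    calc S.ncard * Sm.ncard = ∑ _f ∈ hSfin.toFinset, Sm.ncard := by
          rw [Finset.sum_const, smul_eq_mul, ← Set.ncard_eq_toFinset_card S hSfin]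
      _ ≤ ∑ f ∈ hSfin.toFinset, 4 * (2 * l) ^ g * (Af f).ncard :=
          Finset.sum_le_sum fun f hf => hA1 f (hSfin.mem_toFinset.1 hf)
      _ = 4 * (2 * l) ^ g * ∑ f ∈ hSfin.toFinset, (Af f).ncard := by rw [Finset.mul_sum]
      _ ≤ 4 * (2 * l) ^ g * P.ncard := Nat.mul_le_mul_left _ hA2
  have hSp : 0 < Sm.ncard := (Set.ncard_pos (hfin Sm)).2 (extCoset_nonempty g l e δ κ)
  have hSpR : (0 : ℝ) < (Sm.ncard : ℝ) := by exact_mod_cast hSp
  have hA4 : (S.ncard : ℝ) * (Sm.ncard : ℝ) ≤ 4 * (2 * (l : ℝ)) ^ g * (P.ncard : ℝ) := by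
    exact_mod_cast hA3
  unfold eproportion
  change c / (4 * 2 ^ g) ≤ (P.ncard : ℝ) / (Sm.ncard : ℝ)
  rw [div_le_div_iff₀ (by positivity) hSpR]
  have h5 : c * (l : ℝ) ^ g * (Sm.ncard : ℝ) ≤ 4 * (2 * (l : ℝ)) ^ g * (P.ncard : ℝ) :=
    le_trans (by gcongr) hA4
  rw [mul_pow] at h5
  have h6 : (l : ℝ) ^ g * (c * (Sm.ncard : ℝ)) ≤
      (l : ℝ) ^ g * ((P.ncard : ℝ) * (4 * 2 ^ g)) := by
    linarith
  exact le_of_mul_le_mul_left h6 (by positivity)

/-- the polynomials in `halved` without the roots `± 2 r` are good -/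
theorem ehalved_good (hR1 : St_REAL1) (hE1 : St_EREAL1) {g l r e : ℕ} {δ κ : (ZMod l)ˣ}
    (hg : 2 ≤ g) (hl : l.Prime) (hl5 : 5 ≤ l) (hr : ¬ l ∣ r) (he : e = 1 ∨ e = 2)
    (f : (ZMod l)[X]) (hf : f ∈ halved g l r κ) (h1 : f.eval (2 * (r : ZMod l)) ≠ 0)
    (h2 : f.eval (2 * -(r : ZMod l)) ≠ 0) :
    f.Monic ∧ f.natDegree = g ∧ Squarefree (echar g l r e f) ∧
      ∃ B ∈ extCoset g l e δ κ, ((r : ZMod l) • B).charpoly = echar g l r e f := by
  obtain ⟨hm, hd, hsq, hB⟩ := halved_good hR1 hg hl hl5 hr f hf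
  exact ⟨hm, hd, echar_sqf hl (by omega) hr he hsq h1 h2,
    hE1 g l r e δ κ f hl (by omega) hB⟩

theorem prod_eval_ne {l r : ℕ} (hl : l.Prime) (T : Finset (ZMod l))
    (hT : ∀ t ∈ T, t ^ 2 - 4 * (r : ZMod l) ^ 2 ≠ 0) :
    (∏ t ∈ T, (X - C t)).eval (2 * (r : ZMod l)) ≠ 0 ∧
      (∏ t ∈ T, (X - C t)).eval (2 * -(r : ZMod l)) ≠ 0 := by
  have : Fact l.Prime := ⟨hl⟩
  constructor
  · rw [eval_prod, Finset.prod_ne_zero_iff]
    intro t ht h
    rw [eval_sub, eval_X, eval_C] at h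
    apply hT t ht
    linear_combination -(t + 2 * (r : ZMod l)) * h
  · rw [eval_prod, Finset.prod_ne_zero_iff]
    intro t ht h
    rw [eval_sub, eval_X, eval_C] at h
    apply hT t ht
    linear_combination -(t - 2 * (r : ZMod l)) * h

theorem split_eval {g l r q : ℕ} (hl : l.Prime) (hq : (q : ZMod l) = (r : ZMod l) ^ 2)
    (f : (ZMod l)[X]) (hf : f ∈ splitSet g l q) :
    f.eval (2 * (r : ZMod l)) ≠ 0 ∧ f.eval (2 * -(r : ZMod l)) ≠ 0 := by
  obtain ⟨T, -, rfl, hT⟩ := hf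
  apply prod_eval_ne hl
  intro t ht
  rw [← hq]
  exact (hT t ht).2

theorem irr_eval {g l : ℕ} (hg : 2 ≤ g) (hl : l.Prime) (f : (ZMod l)[X])
    (hf : f ∈ irrSet g l) (a : ZMod l) : f.eval a ≠ 0 := by
  have : Fact l.Prime := ⟨hl⟩
  obtain ⟨hm, hd, hi⟩ := hf
  intro h
  have h1 := degree_eq_one_of_irreducible_of_root hi h
  have h2 : f.natDegree = 1 := natDegree_eq_of_degree_eq_some h1
  omega

theorem eflip_good (hWM : St_WM) (hR2 : St_EREAL2) {g N l r q e : ℕ} {δ κ : (ZMod l)ˣ}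
    (hg : 2 ≤ g) (hl : l.Prime) (hl5 : 5 ≤ l) (hr : ¬ l ∣ r) (he : e = 1 ∨ e = 2)
    (hq : (q : ZMod l) = (r : ZMod l) ^ 2) (f : (ZMod l)[X]) (hf : f ∈ eflipSet g N l r κ) :
    f ∈ flipSet g N l q ∧
    f.Monic ∧ f.natDegree = g ∧ Squarefree (echar g l r e f) ∧
      ∃ B ∈ extCoset g l e δ κ, ((r : ZMod l) • B).charpoly = echar g l r e f := by
  classical
  have : Fact l.Prime := ⟨hl⟩
  obtain ⟨T, t₀, hT, h0, rfl, hs0, hluc, hrest, hsq⟩ := hf
  have hr0 := natCast_ne hl hr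
  have hd0 : t₀ ^ 2 - 4 * (r : ZMod l) ^ 2 ≠ 0 := by
    intro h
    apply hs0
    rw [h]
    exact IsSquare.zero
  have hdisc : ∀ t ∈ T, t ^ 2 - 4 * (r : ZMod l) ^ 2 ≠ 0 := by
    intro t ht
    by_cases hne0 : t = t₀
    · rw [hne0]; exact hd0
    · exact (hrest t (Finset.mem_erase.mpr ⟨hne0, ht⟩)).2
  have hsqf : Squarefree (weilm ((r : ZMod l) ^ 2) (∏ t ∈ T, (X - C t))) := by
    rw [weilm_prod hWM hl]
    apply Separable.squarefree
    apply separable_prod'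
    · intro t _ t' _ hne
      exact quad_coprime (pow_ne_zero 2 hr0) hne
    · intro t ht
      exact quad_sep (hdisc t ht)
  obtain ⟨ev1, ev2⟩ := prod_eval_ne hl T hdisc
  refine ⟨?_, ?_, ?_, echar_sqf hl (by omega) hr he hsqf ev1 ev2, ?_⟩
  · have hq' : (q : ZMod l) = ((r ^ 2 : ℕ) : ZMod l) := by rw [hq, Nat.cast_pow]
    rw [flipSet_congr hq']
    have hcast : (((r ^ 2 : ℕ)) : ZMod l) = (r : ZMod l) ^ 2 := Nat.cast_pow r 2
    refine ⟨T, t₀, hT, h0, rfl, ?_, hluc, ?_⟩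
    · rw [hcast]; exact hs0
    · rw [hcast]
      intro t ht hne
      exact hrest t (Finset.mem_erase.mpr ⟨hne, ht⟩)
  · exact monic_prod_of_monic _ _ fun t _ => monic_X_sub_C t
  · rw [natDegree_prod_of_monic _ _ fun t _ => monic_X_sub_C t]
    simp [hT]
  · obtain ⟨B, hB, h⟩ := hR2 g l r e δ κ T t₀ hg hl hl5 hr he hT h0 hd0 hrest hsq
    refine ⟨B, hB, ?_⟩
    rw [h, echar, weilm_prod hWM hl]

theorem edens (h1 : St_WM) (h2 : St_EORB) (h3 : St_EREAL1) (h4 : St_EREAL2) (h5 : St_ECNT)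
    (h6 : St_REAL1) (h7 : St_OCNTS) (h8 : St_OCNTI) : St_EDENS := by
  intro g N hg hN
  have hW : St_WINJ := Pool.Agent.W366.MF.winj
  obtain ⟨c₁, hc₁, l₁, H1⟩ := h5 g N (by omega) hN
  obtain ⟨c₂, hc₂, l₂, H2⟩ := h7 g hg
  obtain ⟨c₃, hc₃, l₃, H3⟩ := h8 g (by omega)
  have h2g : (0 : ℝ) < 4 * 2 ^ g := by positivity
  refine ⟨min c₁ (min c₂ c₃) / (4 * 2 ^ g),
    div_pos (lt_min hc₁ (lt_min hc₂ hc₃)) h2g, max (max l₁ (max l₂ l₃)) 5, ?_⟩
  intro l hl hll z hz e he δ κ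
  have : NeZero l := ⟨hl.ne_zero⟩
  have hll5 : 5 ≤ l := (le_max_right _ _).trans hll
  have hll' := (le_max_left _ _).trans hll
  have hla : l₁ ≤ l := (le_max_left _ _).trans hll'
  have hlb : l₂ ≤ l := (le_max_left _ _).trans ((le_max_right _ _).trans hll')
  have hlc : l₃ ≤ l := (le_max_right _ _).trans ((le_max_right _ _).trans hll')
  have hl2 : l ≠ 2 := by omega
  have hg0 : 0 < g := by omega
  have m1 : min c₁ (min c₂ c₃) ≤ c₁ := min_le_left _ _
  have m2 : min c₁ (min c₂ c₃) ≤ c₂ := (min_le_right _ _).trans (min_le_left _ _)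
  have m3 : min c₁ (min c₂ c₃) ≤ c₃ := (min_le_right _ _).trans (min_le_right _ _)
  obtain ⟨r, hrz⟩ : ∃ r : ℕ, (z : ZMod l) = (r : ZMod l) :=
    ⟨(z : ZMod l).val, by rw [ZMod.natCast_val, ZMod.cast_id', id]⟩
  have hr : ¬ l ∣ r := by
    intro h
    apply hz
    rw [← ZMod.intCast_zmod_eq_zero_iff_dvd, hrz, ZMod.natCast_eq_zero_iff]
    exact h
  have hq : ((z.natAbs ^ 2 : ℕ) : ZMod l) = (r : ZMod l) ^ 2 := by
    rw [← hrz, Nat.cast_pow]
    exact natAbs_sq_cast z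
  have hq' : ((z.natAbs ^ 2 : ℕ) : ZMod l) = ((r ^ 2 : ℕ) : ZMod l) := by rw [hq, Nat.cast_pow]
  refine ⟨?_, ?_, ?_⟩
  · refine (div_le_div_of_nonneg_right m1 h2g.le).trans ?_
    exact eprop_ge h1 h2 hW hg0 hl hl2 hr hrz he hc₁
      (fun f hf => (eflip_good (δ := δ) h1 h4 (by omega) hl hll5 hr he hq f hf).1)
      (fun f hf => (eflip_good h1 h4 (by omega) hl hll5 hr he hq f hf).2) (H1 l hl hla r hr κ)
  · refine (div_le_div_of_nonneg_right m2 h2g.le).trans ?_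
    rw [splitSet_congr hq']
    exact eprop_ge h1 h2 hW hg0 hl hl2 hr hrz he hc₂ Set.inter_subset_left
      (fun f hf => ehalved_good h6 h3 (by omega) hl hll5 hr he f hf.2
        (split_eval hl (Nat.cast_pow r 2) f hf.1).1 (split_eval hl (Nat.cast_pow r 2) f hf.1).2)
      (H2 l hl hlb r hr κ)
  · refine (div_le_div_of_nonneg_right m3 h2g.le).trans ?_
    exact eprop_ge h1 h2 hW hg0 hl hl2 hr hrz he hc₃ Set.inter_subset_left
      (fun f hf => ehalved_good h6 h3 (by omega) hl hll5 hr he f hf.2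
        (irr_eval (by omega) hl f hf.1 _) (irr_eval (by omega) hl f hf.1 _))
      (H3 l hl hlc r hr κ)

end Pool.Agent.W29.MF
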